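import Mathlib

/-!
# Deleting a branch from a recursively partitionable semistar

We show that deleting any branch of a recursively partitionable (RP) semistar
`K_{b₀}(b₁, …, b_k)` leaves a recursively partitionable semistar (if it is nonempty).

The proof works with numerical data.  A semistar is recorded by a function
`c : Option ι → ℕ`, where `c none` is the number of central vertices and `c (some j)` the
size of the `j`-th branch.
-/

namespace Pool.Agent.Results.MP_b92a9b_co.DeleteBranch

/-- `RPOn G A`: the subgraph of `G` induced by the finite vertex set `A` is recursively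
partitionable.  That is, `A` has exactly one element, or it has at least two elements, the
induced subgraph is connected, and for every integer partition `a₁ ≤ … ≤ a_k` of `|A|` with
`k ≥ 2` (positive) parts there is a partition `P₁, …, P_k` of `A` with `|P_i| = a_i` all of whose
parts induce recursively partitionable subgraphs.  (The inequality `|P_i| < |A|` is automatic; it
is displayed only since the definition is by recursion on `|A|`.) -/
def RPOn {V : Type} (G : SimpleGraph V) (A : Finset V) : Prop :=
  A.card = 1 ∨ (2 ≤ A.card ∧ (G.induce (A : Set V)).Connected ∧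
    ∀ (k : ℕ) (a : Fin k → ℕ), 2 ≤ k → (∀ i, 1 ≤ a i) → Monotone a → ∑ i, a i = A.card →
      ∃ P : Fin k → Finset V,
        (∀ i j, i ≠ j → Disjoint (P i) (P j)) ∧ (∀ v, v ∈ A ↔ ∃ i, v ∈ P i) ∧
        (∀ i, (P i).card = a i) ∧ ∀ i, ∃ _h : (P i).card < A.card, RPOn G (P i))
termination_by A.card

/-- A finite graph is recursively partitionable (RP) if the subgraph induced by the set of all
its vertices is. -/
def IsRP {V : Type} [Fintype V] (G : SimpleGraph V) : Prop := RPOn G Finset.univ

/-- The semistar `K_{b₀}(b₁, …, b_k)`: the vertices are `b₀` central vertices and, for each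
`j`, the `b j` vertices of the `j`-th branch.  A central vertex is adjacent to all other vertices,
and two distinct vertices of branches are adjacent exactly when they are in the same branch. -/
def semistar {k : ℕ} (b₀ : ℕ) (b : Fin k → ℕ) :
    SimpleGraph (Fin b₀ ⊕ (Σ j : Fin k, Fin (b j))) where
  Adj u v := u ≠ v ∧ match u, v with
    | Sum.inl _, _ => True
    | _, Sum.inl _ => True
    | Sum.inr p, Sum.inr q => p.1 = q.1
  symm := ⟨by
    intro u v h
    refine ⟨h.1.symm, ?_⟩
    rcases u with u | u <;> rcases v with v | v <;> simp_all⟩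
  loopless := ⟨fun u h => h.1 rfl⟩

/-! ### Numerical data -/

section numeric

variable {ι : Type} [Fintype ι] [DecidableEq ι]

/-- number of vertices -/
def total (c : Option ι → ℕ) : ℕ := ∑ o, c o

theorem total_add (c d : Option ι → ℕ) : total (c + d) = total c + total d := by
  simp [total, Finset.sum_add_distrib]

/-- connectedness -/
def Conn (c : Option ι → ℕ) : Prop :=
  c none ≠ 0 ∨ ∀ i j, c (some i) ≠ 0 → c (some j) ≠ 0 → i = j

/-- numerical version of RP -/
def NRP (c : Option ι → ℕ) : Prop :=
  1 ≤ total c ∧ Conn c ∧ ∀ l, 1 ≤ l → l < total c → ∃ c₁ c₂ : Option ι → ℕ,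
    c = c₁ + c₂ ∧ total c₁ = l ∧ (∃ _h : total c₁ < total c, NRP c₁) ∧
      ∃ _h : total c₂ < total c, NRP c₂
termination_by total c

theorem NRP_iff (c : Option ι → ℕ) : NRP c ↔ 1 ≤ total c ∧ Conn c ∧
    ∀ l, 1 ≤ l → l < total c → ∃ c₁ c₂ : Option ι → ℕ,
      c = c₁ + c₂ ∧ total c₁ = l ∧ NRP c₁ ∧ NRP c₂ := by
  constructor
  · intro h
    rw [NRP] at h
    refine ⟨h.1, h.2.1, fun l h1 h2 => ?_⟩
    obtain ⟨c₁, c₂, e, t, ⟨_, n1⟩, ⟨_, n2⟩⟩ := h.2.2 l h1 h2
    exact ⟨c₁, c₂, e, t, n1, n2⟩
  · intro h
    rw [NRP]
    refine ⟨h.1, h.2.1, fun l h1 h2 => ?_⟩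
    obtain ⟨c₁, c₂, e, t, n1, n2⟩ := h.2.2 l h1 h2
    have ht : total c = total c₁ + total c₂ := by rw [e, total_add]
    exact ⟨c₁, c₂, e, t, ⟨by omega, n1⟩, ⟨by omega, n2⟩⟩

theorem NRP.pos {c : Option ι → ℕ} (h : NRP c) : 1 ≤ total c := ((NRP_iff c).1 h).1

/-- delete the branch `y` -/
def del (y : ι) (c : Option ι → ℕ) : Option ι → ℕ := Function.update c (some y) 0

theorem del_self (y : ι) (c : Option ι → ℕ) : del y c (some y) = 0 := by simp [del]

theorem del_ne (y : ι) (c : Option ι → ℕ) {o : Option ι} (h : o ≠ some y) :
    del y c o = c o := by simp [del, h]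

theorem del_add (y : ι) (c d : Option ι → ℕ) : del y (c + d) = del y c + del y d := by
  funext o
  by_cases h : o = some y
  · subst h; simp [del]
  · simp [del, h]

theorem del_eq (y : ι) {c : Option ι → ℕ} (h : c (some y) = 0) : del y c = c := by
  funext o
  by_cases ho : o = some y
  · subst ho; simp [del, h]
  · simp [del, ho]

theorem total_del (y : ι) (c : Option ι → ℕ) : total (del y c) + c (some y) = total c := by
  unfold total
  rw [← Finset.add_sum_erase _ (del y c) (Finset.mem_univ (some y)),
    ← Finset.add_sum_erase _ c (Finset.mem_univ (some y)), del_self]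
  have : ∑ x ∈ Finset.univ.erase (some y), del y c x = ∑ x ∈ Finset.univ.erase (some y), c x :=
    Finset.sum_congr rfl fun o ho => del_ne y c (Finset.ne_of_mem_erase ho)
  omega

/-- **Exchange lemma.**  A branch of an RP semistar may be replaced by an RP semistar of the same
order, laid on top of the rest. -/
theorem exchange (y : ι) (n : ℕ) : ∀ c x : Option ι → ℕ, total c = n → NRP c → NRP x →
    total x = c (some y) → NRP (del y c + x) := by
  induction n using Nat.strong_induction_on with
  | _ n ih =>
    intro c x hn hc hx hxt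
    have hxpos := hx.pos
    obtain ⟨hc1, hc2, hc3⟩ := (NRP_iff c).1 hc
    have htd := total_del y c
    have htot : total (del y c + x) = total c := by rw [total_add]; omega
    by_cases hz : c none = 0
    · -- then `c` is the branch `y` only
      have hall : ∀ i j, c (some i) ≠ 0 → c (some j) ≠ 0 → i = j := by
        rcases hc2 with h | h
        · exact absurd hz h
        · exact h
      have h0 : del y c = 0 := by
        funext o
        by_cases ho : o = some y
        · subst ho; simp [del]
        · rw [del_ne y c ho]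
          rcases o with _ | i
          · exact hz
          · by_contra hne
            exact ho (congrArg some (hall i y hne (by omega)))
      rw [h0, zero_add]
      exact hx
    · rw [NRP_iff]
      refine ⟨by omega, Or.inl ?_, fun l hl1 hl2 => ?_⟩
      · rw [Pi.add_apply, del_ne y c (by simp)]
        omega
      · rw [htot] at hl2
        obtain ⟨A, B, hAB, hAl, hA, hB⟩ := hc3 l hl1 hl2
        have hABt : total A + total B = total c := by rw [hAB, total_add]
        have hy : c (some y) = A (some y) + B (some y) := by rw [hAB]; rfl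
        have hAp := hA.pos
        have hBp := hB.pos
        have tA := total_del y A
        have tB := total_del y B
        rcases Nat.eq_zero_or_pos (A (some y)) with ha | ha
        · refine ⟨A, del y B + x, ?_, hAl, hA, ?_⟩
          · rw [hAB, del_add, del_eq y ha, add_assoc]
          · exact ih (total B) (by omega) B x rfl hB hx (by omega)
        · rcases Nat.eq_zero_or_pos (B (some y)) with hb | hb
          · refine ⟨del y A + x, B, ?_, ?_, ?_, hB⟩
            · rw [hAB, del_add, del_eq y hb]; abel
            · rw [total_add]; omega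
            · exact ih (total A) (by omega) A x rfl hA hx (by omega)
          · obtain ⟨X₁, X₂, hX, hX1, hX₁, hX₂⟩ :=
              ((NRP_iff x).1 hx).2.2 (A (some y)) ha (by omega)
            have hXt : total X₁ + total X₂ = total x := by rw [hX, total_add]
            refine ⟨del y A + X₁, del y B + X₂, ?_, ?_, ?_, ?_⟩
            · rw [hAB, hX, del_add]; abel
            · rw [total_add]; omega
            · exact ih (total A) (by omega) A X₁ rfl hA hX₁ (by omega)
            · exact ih (total B) (by omega) B X₂ rfl hB hX₂ (by omega)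

/-- **Deletion of a branch**, numerical version. -/
theorem del_NRP (y : ι) (n : ℕ) : ∀ c : Option ι → ℕ, total c = n → NRP c →
    1 ≤ total (del y c) → NRP (del y c) := by
  induction n using Nat.strong_induction_on with
  | _ n ih =>
    intro c hn hc hpos
    obtain ⟨hc1, hc2, hc3⟩ := (NRP_iff c).1 hc
    have htd := total_del y c
    rcases Nat.eq_zero_or_pos (c (some y)) with hy0 | hy0
    · rw [del_eq y hy0]; exact hc
    rw [NRP_iff]
    refine ⟨hpos, ?_, fun l hl1 hl2 => ?_⟩
    · rcases hc2 with h | h
      · left; rw [del_ne y c (by simp)]; exact h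
      · right
        intro i j hi hj
        have hiy : i ≠ y := by rintro rfl; exact hi (del_self i c)
        have hjy : j ≠ y := by rintro rfl; exact hj (del_self j c)
        rw [del_ne y c (by simpa using hiy)] at hi
        rw [del_ne y c (by simpa using hjy)] at hj
        exact h i j hi hj
    · obtain ⟨A, R, hAR, hAl, hA, hR⟩ := hc3 l hl1 (by omega)
      have hARt : total A + total R = total c := by rw [hAR, total_add]
      obtain ⟨B, C, hBC, hBl, hB, hC⟩ :=
        ((NRP_iff R).1 hR).2.2 (total (del y c) - l) (by omega) (by omega)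
      have hBCt : total B + total C = total R := by rw [hBC, total_add]
      have hy : c (some y) = A (some y) + (B (some y) + C (some y)) := by
        rw [hAR, hBC]; rfl
      have tA := total_del y A
      have tB := total_del y B
      have tC := total_del y C
      have hcd : del y c = del y A + (del y B + del y C) := by
        rw [hAR, hBC, del_add, del_add]
      rcases Nat.eq_zero_or_pos (total (del y C)) with h0 | h0
      · -- the third part is the branch itself
        have hC0 : del y C = 0 := by
          funext o
          have : del y C o ≤ total (del y C) :=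
            Finset.single_le_sum (f := del y C) (fun _ _ => Nat.zero_le _) (Finset.mem_univ o)
          simp only [Pi.zero_apply]
          omega
        refine ⟨A, B, ?_, hAl, hA, hB⟩
        rw [hcd, hC0, add_zero, del_eq y (by omega), del_eq y (by omega)]
      · have hCN : NRP (del y C) := ih (total C) (by omega) C rfl hC h0
        rcases Nat.eq_zero_or_pos (A (some y)) with ha | ha
        · refine ⟨A, del y B + del y C, ?_, hAl, hA, ?_⟩
          · rw [hcd, del_eq y ha]
          · exact exchange y _ B (del y C) rfl hB hCN (by omega)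
        · rcases Nat.eq_zero_or_pos (B (some y)) with hb | hb
          · refine ⟨del y A + del y C, B, ?_, ?_, ?_, hB⟩
            · rw [hcd, del_eq y hb]; abel
            · rw [total_add]; omega
            · exact exchange y _ A (del y C) rfl hA hCN (by omega)
          · obtain ⟨X₁, X₂, hX, hX1, hX₁, hX₂⟩ :=
              ((NRP_iff _).1 hCN).2.2 (A (some y)) ha (by omega)
            have hXt : total X₁ + total X₂ = total (del y C) := by rw [hX, total_add]
            refine ⟨del y A + X₁, del y B + X₂, ?_, ?_, ?_, ?_⟩
            · rw [hcd, hX]; abel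
            · rw [total_add]; omega
            · exact exchange y _ A X₁ rfl hA hX₁ (by omega)
            · exact exchange y _ B X₂ rfl hB hX₂ (by omega)

end numeric

/-! ### Graphs and numerical data -/

section bridge

variable {V ι : Type} [Fintype ι] [DecidableEq ι]

/-- the numerical data of a finite set of labelled vertices -/
def cnt (f : V → Option ι) (A : Finset V) : Option ι → ℕ :=
  fun o => (A.filter (fun v => f v = o)).card

theorem total_cnt (f : V → Option ι) (A : Finset V) : total (cnt f A) = A.card :=
  (Finset.card_eq_sum_card_fiberwise (f := f) (t := Finset.univ)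
    (fun _ _ => Finset.mem_coe.2 (Finset.mem_univ _))).symm

theorem cnt_union (f : V → Option ι) [DecidableEq V] {A B : Finset V} (h : Disjoint A B) :
    cnt f (A ∪ B) = cnt f A + cnt f B := by
  funext o
  simp only [cnt, Pi.add_apply]
  rw [Finset.filter_union, Finset.card_union_of_disjoint]
  exact Finset.disjoint_filter_filter h

theorem exists_subset (f : V → Option ι) [DecidableEq V] (A : Finset V) (c₁ c₂ : Option ι → ℕ)
    (h : cnt f A = c₁ + c₂) : ∃ A₁ A₂ : Finset V, Disjoint A₁ A₂ ∧ A₁ ∪ A₂ = A ∧
      cnt f A₁ = c₁ ∧ cnt f A₂ = c₂ := by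
  have h1 : ∀ o, ∃ S ⊆ A.filter (fun v => f v = o), S.card = c₁ o := by
    intro o
    apply Finset.exists_subset_card_eq
    have := congrFun h o
    simp only [cnt, Pi.add_apply] at this
    omega
  choose S hS1 hS2 using h1
  have hA1 : ∀ v, v ∈ Finset.univ.biUnion S ↔ v ∈ S (f v) := by
    intro v
    rw [Finset.mem_biUnion]
    constructor
    · rintro ⟨o, -, ho⟩
      have := (Finset.mem_filter.1 (hS1 o ho)).2
      rwa [this]
    · intro hv
      exact ⟨f v, Finset.mem_univ _, hv⟩
  have hsub : Finset.univ.biUnion S ⊆ A := by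
    intro v hv
    exact (Finset.mem_filter.1 (hS1 _ ((hA1 v).1 hv))).1
  have hc1 : cnt f (Finset.univ.biUnion S) = c₁ := by
    funext o
    rw [← hS2 o]
    unfold cnt
    congr 1
    ext v
    rw [Finset.mem_filter, hA1]
    constructor
    · rintro ⟨hv, rfl⟩; exact hv
    · intro hv
      have := (Finset.mem_filter.1 (hS1 o hv)).2
      exact ⟨by rwa [this], this⟩
  have hd : Disjoint (Finset.univ.biUnion S) (A \ Finset.univ.biUnion S) :=
    Finset.disjoint_sdiff
  have hu : Finset.univ.biUnion S ∪ (A \ Finset.univ.biUnion S) = A :=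
    Finset.union_sdiff_of_subset hsub
  refine ⟨_, _, hd, hu, hc1, ?_⟩
  have h2 := cnt_union f hd
  rw [hu, h, hc1] at h2
  exact (add_left_cancel h2).symm

variable (G : SimpleGraph V) (f : V → Option ι)

theorem conn_of_connected (hG : ∀ u v, G.Adj u v ↔ u ≠ v ∧ (f u = none ∨ f v = none ∨ f u = f v))
    (A : Finset V) (h : (G.induce (A : Set V)).Connected) : Conn (cnt f A) := by
  by_contra hcon
  unfold Conn at hcon
  push Not at hcon
  obtain ⟨h0, i, j, hi, hj, hij⟩ := hcon
  have hnone : ∀ v ∈ A, f v ≠ none := by
    intro v hv hf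
    have : v ∈ A.filter (fun v => f v = none) := Finset.mem_filter.2 ⟨hv, hf⟩
    have h1 : (A.filter (fun v => f v = none)).card = 0 := h0
    rw [Finset.card_eq_zero] at h1
    rw [h1] at this
    simp at this
  obtain ⟨u, hu⟩ := Finset.card_pos.1 (Nat.pos_of_ne_zero hi)
  obtain ⟨w, hw⟩ := Finset.card_pos.1 (Nat.pos_of_ne_zero hj)
  rw [Finset.mem_filter] at hu hw
  -- all vertices reachable from `u` have the label of `u`
  have key : ∀ x : (A : Set V), (G.induce (A : Set V)).Reachable ⟨u, hu.1⟩ x →
      f x.1 = some i := by
    rintro x ⟨p⟩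
    have : ∀ (a b : (A : Set V)) (p : (G.induce (A : Set V)).Walk a b), f a.1 = some i →
        f b.1 = some i := by
      intro a b p
      induction p with
      | nil => exact id
      | @cons a b c hab q ih =>
        intro ha
        apply ih
        have hadj : G.Adj a.1 b.1 := hab
        rw [hG] at hadj
        rcases hadj.2 with h | h | h
        · exact absurd h (hnone _ a.2)
        · exact absurd h (hnone _ b.2)
        · rw [← h, ha]
    exact this _ _ p hu.2
  have := key ⟨w, hw.1⟩ (h.preconnected _ _)
  rw [hw.2] at this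
  exact hij (Option.some.inj this).symm

theorem connected_of_conn (hG : ∀ u v, G.Adj u v ↔ u ≠ v ∧ (f u = none ∨ f v = none ∨ f u = f v))
    (A : Finset V) (hA : A.Nonempty) (h : Conn (cnt f A)) :
    (G.induce (A : Set V)).Connected := by
  have hne : Nonempty (A : Set V) := ⟨⟨hA.choose, hA.choose_spec⟩⟩
  rcases h with h | h
  · obtain ⟨z, hz⟩ := Finset.card_pos.1 (Nat.pos_of_ne_zero h)
    rw [Finset.mem_filter] at hz
    have hzr : ∀ x : (A : Set V), (G.induce (A : Set V)).Reachable ⟨z, hz.1⟩ x := by
      intro x
      by_cases hxz : z = x.1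
      · have : x = ⟨z, hz.1⟩ := Subtype.ext hxz.symm
        rw [this]
      · apply SimpleGraph.Adj.reachable
        show G.Adj z x.1
        rw [hG]
        exact ⟨hxz, Or.inl hz.2⟩
    exact { preconnected := fun x y => (hzr x).symm.trans (hzr y), nonempty := hne }
  · by_cases hn : ∃ z ∈ A, f z = none
    · obtain ⟨z, hzA, hz⟩ := hn
      have hzr : ∀ x : (A : Set V), (G.induce (A : Set V)).Reachable ⟨z, hzA⟩ x := by
        intro x
        by_cases hxz : z = x.1
        · have : x = ⟨z, hzA⟩ := Subtype.ext hxz.symm
          rw [this]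
        · apply SimpleGraph.Adj.reachable
          show G.Adj z x.1
          rw [hG]
          exact ⟨hxz, Or.inl hz⟩
      exact { preconnected := fun x y => (hzr x).symm.trans (hzr y), nonempty := hne }
    · push Not at hn
      refine { preconnected := fun x y => ?_, nonempty := hne }
      by_cases hxy : x = y
      · rw [hxy]
      · apply SimpleGraph.Adj.reachable
        show G.Adj x.1 y.1
        rw [hG]
        refine ⟨fun h => hxy (Subtype.ext h), Or.inr (Or.inr ?_)⟩
        obtain ⟨i, hi⟩ := Option.ne_none_iff_exists'.1 (hn x.1 x.2)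
        obtain ⟨j, hj⟩ := Option.ne_none_iff_exists'.1 (hn y.1 y.2)
        have hi' : cnt f A (some i) ≠ 0 := by
          have : x.1 ∈ A.filter (fun v => f v = some i) := Finset.mem_filter.2 ⟨x.2, hi⟩
          exact (Finset.card_pos.2 ⟨_, this⟩).ne'
        have hj' : cnt f A (some j) ≠ 0 := by
          have : y.1 ∈ A.filter (fun v => f v = some j) := Finset.mem_filter.2 ⟨y.2, hj⟩
          exact (Finset.card_pos.2 ⟨_, this⟩).ne'
        rw [hi, hj, h i j hi' hj']

theorem conn_of_total_one (c : Option ι → ℕ) (h : total c = 1) : Conn c := by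
  by_contra hcon
  unfold Conn at hcon
  push Not at hcon
  obtain ⟨-, i, j, hi, hj, hij⟩ := hcon
  have h1 : c (some i) + c (some j) ≤ total c := by
    have hne : (some i : Option ι) ≠ some j := fun h => hij (Option.some.inj h)
    calc c (some i) + c (some j) = ∑ o ∈ {some i, some j}, c o := by
          rw [Finset.sum_pair hne]
      _ ≤ total c := Finset.sum_le_sum_of_subset (Finset.subset_univ _)
  omega

theorem NRP_of_RPOn
    (hG : ∀ u v, G.Adj u v ↔ u ≠ v ∧ (f u = none ∨ f v = none ∨ f u = f v)) (n : ℕ) :
    ∀ A : Finset V, A.card = n → RPOn G A → NRP (cnt f A) := by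
  classical
  induction n using Nat.strong_induction_on with
  | _ n ih =>
    intro A hn hA
    rw [RPOn] at hA
    rw [NRP_iff, total_cnt]
    rcases hA with h1 | ⟨h2, hconn, hpart⟩
    · refine ⟨by omega, conn_of_total_one _ (by rw [total_cnt, h1]), fun l h3 h4 => ?_⟩
      omega
    · refine ⟨by omega, conn_of_connected G f hG A hconn, fun l hl1 hl2 => ?_⟩
      -- a two-part partition
      have two : ∀ p q : ℕ, 1 ≤ p → p ≤ q → p + q = A.card → ∃ c₁ c₂ : Option ι → ℕ,
          cnt f A = c₁ + c₂ ∧ total c₁ = p ∧ total c₂ = q ∧ NRP c₁ ∧ NRP c₂ := by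
        intro p q hp hpq hs
        obtain ⟨P, hd, hm, hc, hr⟩ := hpart 2 ![p, q] le_rfl
          (by intro i; fin_cases i <;> simp <;> omega)
          (by
            intro i j hij
            fin_cases i <;> fin_cases j <;> simp_all)
          (by simp [hs])
        have hu : P 0 ∪ P 1 = A := by
          ext v
          rw [Finset.mem_union, hm v, Fin.exists_fin_two]
        have hd' : Disjoint (P 0) (P 1) := hd 0 1 (by decide)
        have c0 : (P 0).card = p := hc 0
        have c1 : (P 1).card = q := hc 1
        obtain ⟨l0, r0⟩ := hr 0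
        obtain ⟨l1, r1⟩ := hr 1
        refine ⟨cnt f (P 0), cnt f (P 1), ?_, ?_, ?_, ?_, ?_⟩
        · rw [← hu, cnt_union f hd']
        · rw [total_cnt, c0]
        · rw [total_cnt, c1]
        · exact ih _ (by omega) (P 0) rfl r0
        · exact ih _ (by omega) (P 1) rfl r1
      rcases le_total l (A.card - l) with hle | hle
      · obtain ⟨c₁, c₂, e, t1, t2, n1, n2⟩ := two l (A.card - l) hl1 hle (by omega)
        exact ⟨c₁, c₂, e, t1, n1, n2⟩
      · obtain ⟨c₁, c₂, e, t1, t2, n1, n2⟩ := two (A.card - l) l (by omega) hle (by omega)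
        exact ⟨c₂, c₁, by rw [e, add_comm], t2, n2, n1⟩

/-- from two-part splittings to `k`-part splittings -/
theorem split_many [DecidableEq V] (k : ℕ) : ∀ (A : Finset V) (a : Fin (k + 1) → ℕ),
    (∀ i, 1 ≤ a i) → ∑ i, a i = A.card → NRP (cnt f A) →
    ∃ P : Fin (k + 1) → Finset V, (∀ i j, i ≠ j → Disjoint (P i) (P j)) ∧
      (∀ v, v ∈ A ↔ ∃ i, v ∈ P i) ∧ (∀ i, (P i).card = a i) ∧ ∀ i, NRP (cnt f (P i)) := by
  induction k with
  | zero =>
    intro A a ha hs hN
    refine ⟨fun _ => A, ?_, ?_, ?_, fun _ => hN⟩
    · intro i j hij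
      exact absurd (by omega) hij
    · intro v; simp
    · intro i
      rw [← hs]
      have : i = 0 := by omega
      subst this
      simp
  | succ k ih =>
    intro A a ha hs hN
    rw [Fin.sum_univ_succ] at hs
    have hrest : 1 ≤ ∑ i : Fin (k + 1), a i.succ := by
      calc 1 ≤ a (Fin.succ 0) := ha _
        _ ≤ ∑ i : Fin (k + 1), a i.succ :=
          Finset.single_le_sum (f := fun i : Fin (k + 1) => a i.succ)
            (fun _ _ => Nat.zero_le _) (Finset.mem_univ 0)
    have h0 := ha 0
    obtain ⟨c₁, c₂, e, t1, n1, n2⟩ := ((NRP_iff _).1 hN).2.2 (a 0) h0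
      (by rw [total_cnt]; omega)
    obtain ⟨A₁, A₂, hd, hu, e1, e2⟩ := exists_subset f A c₁ c₂ e
    have hA1 : A₁.card = a 0 := by rw [← total_cnt f A₁, e1, t1]
    have hA2 : ∑ i : Fin (k + 1), a i.succ = A₂.card := by
      have : A.card = A₁.card + A₂.card := by rw [← hu, Finset.card_union_of_disjoint hd]
      omega
    obtain ⟨P, hPd, hPm, hPc, hPN⟩ := ih A₂ (fun i => a i.succ) (fun i => ha _) hA2
      (by rw [e2]; exact n2)
    refine ⟨Fin.cons A₁ P, ?_, ?_, ?_, ?_⟩
    · intro i j hij
      have hdis : ∀ j, Disjoint A₁ (P j) := by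
        intro j
        refine hd.mono_right ?_
        intro v hv
        exact (hPm v).2 ⟨j, hv⟩
      rcases Fin.eq_zero_or_eq_succ i with rfl | ⟨i', rfl⟩
      · rcases Fin.eq_zero_or_eq_succ j with rfl | ⟨j', rfl⟩
        · exact absurd rfl hij
        · rw [Fin.cons_zero, Fin.cons_succ]; exact hdis j'
      · rcases Fin.eq_zero_or_eq_succ j with rfl | ⟨j', rfl⟩
        · rw [Fin.cons_zero, Fin.cons_succ]; exact (hdis i').symm
        · have : i' ≠ j' := fun h => hij (by rw [h])
          rw [Fin.cons_succ, Fin.cons_succ]; exact hPd i' j' this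
    · intro v
      rw [← hu, Finset.mem_union, Fin.exists_fin_succ, hPm v]
      simp
    · intro i
      refine Fin.cases ?_ (fun i' => ?_) i
      · simpa using hA1
      · simpa using hPc i'
    · intro i
      refine Fin.cases ?_ (fun i' => ?_) i
      · simpa [e1] using n1
      · simpa using hPN i'

theorem RPOn_of_NRP
    (hG : ∀ u v, G.Adj u v ↔ u ≠ v ∧ (f u = none ∨ f v = none ∨ f u = f v)) (n : ℕ) :
    ∀ A : Finset V, A.card = n → NRP (cnt f A) → RPOn G A := by
  classical
  induction n using Nat.strong_induction_on with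
  | _ n ih =>
    intro A hn hA
    rw [RPOn]
    have hpos : 1 ≤ A.card := by rw [← total_cnt f A]; exact hA.pos
    rcases Nat.lt_or_ge A.card 2 with h | h
    · left; omega
    · right
      refine ⟨h, connected_of_conn G f hG A (Finset.card_pos.1 (by omega))
        ((NRP_iff _).1 hA).2.1, fun k a hk ha _ hs => ?_⟩
      obtain ⟨k', rfl⟩ : ∃ k', k = k' + 1 := ⟨k - 1, by omega⟩
      obtain ⟨P, hd, hm, hc, hN⟩ := split_many f k' A a ha hs hA
      refine ⟨P, hd, hm, hc, fun i => ?_⟩
      have hlt : (P i).card < A.card := by
        rw [hc i, ← hs]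
        have hj : ∃ j : Fin (k' + 1), j ≠ i := by
          have : Nontrivial (Fin (k' + 1)) := Fin.nontrivial_iff_two_le.2 hk
          exact exists_ne i
        obtain ⟨j, hj⟩ := hj
        rw [← Finset.add_sum_erase _ a (Finset.mem_univ i)]
        have : a j ≤ ∑ x ∈ Finset.univ.erase i, a x :=
          Finset.single_le_sum (fun _ _ => Nat.zero_le _)
            (Finset.mem_erase.2 ⟨hj, Finset.mem_univ _⟩)
        have := ha j
        omega
      exact ⟨hlt, ih _ (by omega) (P i) rfl (hN i)⟩

end bridge

/-- **Deleting a branch of an RP semistar.**  If `K_{b₀}(b₁, …, b_{k+1})` is recursively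
partitionable and the semistar obtained by deleting its `i`-th branch has at least one vertex,
then the latter is recursively partitionable as well. -/
theorem result (k : ℕ) (b₀ : ℕ) (b : Fin (k + 1) → ℕ) (i : Fin (k + 1))
    (h : IsRP (semistar b₀ b)) (hne : 0 < b₀ + ∑ j, b (i.succAbove j)) :
    IsRP (semistar b₀ (fun j : Fin k => b (i.succAbove j))) := by
  classical
  let f : (Fin b₀ ⊕ (Σ j : Fin (k + 1), Fin (b j))) → Option (Fin (k + 1)) :=
    Sum.elim (fun _ => none) (fun p => some p.1)
  let f' : (Fin b₀ ⊕ (Σ j : Fin k, Fin (b (i.succAbove j)))) → Option (Fin (k + 1)) :=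
    Sum.elim (fun _ => none) (fun p => some (i.succAbove p.1))
  have hG : ∀ u v, (semistar b₀ b).Adj u v ↔
      u ≠ v ∧ (f u = none ∨ f v = none ∨ f u = f v) := by
    intro u v
    rcases u with u | u <;> rcases v with v | v <;> simp [semistar, f]
  have hG' : ∀ u v, (semistar b₀ (fun j : Fin k => b (i.succAbove j))).Adj u v ↔
      u ≠ v ∧ (f' u = none ∨ f' v = none ∨ f' u = f' v) := by
    intro u v
    rcases u with u | u <;> rcases v with v | v <;> simp [semistar, f']
  have hN := NRP_of_RPOn (semistar b₀ b) f hG _ Finset.univ rfl h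
  have h1 : ∀ o, cnt f Finset.univ o = (if none = o then b₀ else 0) +
      ∑ j, (if some j = o then b j else 0) := by
    intro o
    unfold cnt
    rw [Finset.card_filter, Fintype.sum_sum_type, Fintype.sum_sigma]
    congr 1
    · show (∑ _x : Fin b₀, if (none : Option (Fin (k + 1))) = o then 1 else 0) = _
      rw [Finset.sum_const, Finset.card_univ, Fintype.card_fin]
      split_ifs <;> simp
    · refine Finset.sum_congr rfl fun j _ => ?_
      show (∑ _x : Fin (b j), if some j = o then 1 else 0) = _
      rw [Finset.sum_const, Finset.card_univ, Fintype.card_fin]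
      split_ifs <;> simp
  have h2 : ∀ o, cnt f' Finset.univ o = (if none = o then b₀ else 0) +
      ∑ j, (if some (i.succAbove j) = o then b (i.succAbove j) else 0) := by
    intro o
    unfold cnt
    rw [Finset.card_filter, Fintype.sum_sum_type, Fintype.sum_sigma]
    congr 1
    · show (∑ _x : Fin b₀, if (none : Option (Fin (k + 1))) = o then 1 else 0) = _
      rw [Finset.sum_const, Finset.card_univ, Fintype.card_fin]
      split_ifs <;> simp
    · refine Finset.sum_congr rfl fun j _ => ?_
      show (∑ _x : Fin (b (i.succAbove j)), if some (i.succAbove j) = o then 1 else 0) = _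
      rw [Finset.sum_const, Finset.card_univ, Fintype.card_fin]
      split_ifs <;> simp
  have hcnt : cnt f' Finset.univ = del i (cnt f Finset.univ) := by
    funext o
    by_cases ho : o = some i
    · subst ho
      rw [del_self, h2]
      simp [Fin.succAbove_ne]
    · rw [del_ne i _ ho, h1, h2, Fin.sum_univ_succAbove _ i, if_neg (Ne.symm ho), zero_add]
  refine RPOn_of_NRP _ f' hG' _ Finset.univ rfl ?_
  rw [hcnt]
  apply del_NRP i _ _ rfl hN
  rw [← hcnt, total_cnt]
  simp
  omega

end Pool.Agent.Results.MP_b92a9b_co.DeleteBranch
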